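import Pool.Agent.Y560.TH.HYd
import Pool.Agent.Y560.TH.MedD

/-!
Project TH: 0-hyperbolic metric spaces with an isometric group action. Measurability of the coding.
-/

set_option autoImplicit false

namespace Pool.Agent.Y454.TH

open Set MeasureTheory
open Pool.Agent.H566P (XG Isom)
open Pool.Agent.Y560.TF (TO)
open Pool.Agent.Y560.TH
open Pool.Agent.Y560.TG.PL (meas_nth)

variable {Γ : Type}

section general

variable {Ω : Type} [MeasurableSpace Ω]

theorem n_of {t : Ω → ℕ} (h : ∀ n, Measurable fun ω => t ω = n) : Measurable t :=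
  measurable_to_countable' fun n => measurableSet_setOfPred.2 (h n)

theorem eq_n {t s : Ω → ℕ} (ht : ∀ n, Measurable fun ω => t ω = n)
    (hs : ∀ n, Measurable fun ω => s ω = n) : Measurable fun ω => t ω = s ω := by
  have e : (fun ω => t ω = s ω) = fun ω => ∃ n, t ω = n ∧ s ω = n := by
    funext ω
    exact propext ⟨fun h => ⟨_, rfl, h.symm⟩, fun ⟨n, h1, h2⟩ => h1.trans h2.symm⟩
  rw [e]
  exact Measurable.exists fun n => (ht n).and (hs n)

theorem eq_r {f g : Ω → ℝ} (hf : Measurable f) (hg : Measurable g) :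
    Measurable fun ω => f ω = g ω :=
  measurableSet_setOfPred.1 (measurableSet_eq_fun hf hg)

theorem le_r {f g : Ω → ℝ} (hf : Measurable f) (hg : Measurable g) :
    Measurable fun ω => f ω ≤ g ω :=
  measurableSet_setOfPred.1 (measurableSet_le hf hg)

/-- replace terms by values, real valued functions -/
theorem r_sub {t : Ω → ℕ} (ht : ∀ n, Measurable fun ω => t ω = n) {F : ℕ → Ω → ℝ}
    (hF : ∀ n, Measurable (F n)) : Measurable fun ω => F (t ω) ω := by
  have h1 : Measurable (fun q : Ω × ℕ => F q.2 q.1) :=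
    measurable_from_prod_countable_left fun n => hF n
  exact h1.comp (measurable_id.prodMk (n_of ht))

end general

/-! ### Functions of the metric structures -/

theorem r_1 (a b : ℕ) : Measurable fun x : XM Γ => x.1 a b :=
  (measurable_pi_apply b).comp ((measurable_pi_apply a).comp measurable_fst)

theorem r_2 (γ : Γ) (m n : ℕ) : Measurable fun x : XM Γ => x.2.1 γ m = n := by
  have h : Measurable fun x : XM Γ => x.2.1 γ m :=
    (measurable_pi_apply m).comp ((measurable_pi_apply γ).comp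
      (measurable_fst.comp measurable_snd))
  exact measurableSet_setOfPred.1 (h (measurableSet_singleton n))

theorem r_3 (i m : ℕ) : Measurable fun x : XM Γ => x.2.2 i m = true := by
  have h : Measurable fun x : XM Γ => x.2.2 i m :=
    (measurable_pi_apply m).comp ((measurable_pi_apply i).comp
      (measurable_snd.comp measurable_snd))
  exact measurableSet_setOfPred.1 (h (measurableSet_singleton true))

theorem r_4 (γ : Γ) (u p : ℕ) : Measurable fun x : XM Γ => x.1 u (x.2.1 γ p) :=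
  r_sub (t := fun x : XM Γ => x.2.1 γ p) (r_2 γ p) (F := fun n x => x.1 u n) fun n => r_1 u n

theorem m_lh (p u : ℕ) : Measurable fun x : XM Γ => lh x p u :=
  (measurable_pi_iff.2 fun γ => r_4 γ u p).prodMk (measurable_pi_iff.2 fun γ => r_4 γ p p)

theorem m_gp (p a b : ℕ) : Measurable fun x : XM Γ => gp x p a b :=
  ((r_1 a p).add (r_1 b p)).sub (r_1 a b)

section cnt

variable [Countable Γ]

theorem m_eqh (p a b : ℕ) : Measurable fun x : XM Γ => eqh x p a b :=
  Measurable.forall fun γ => Measurable.forall fun δ =>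
    eq_r ((r_4 γ a p).sub (r_4 γ b p)) ((r_4 δ a p).sub (r_4 δ b p))

theorem m_UH (p : ℕ) (s : ℕ × ℕ) (c : ℕ) : Measurable fun x : XM Γ => c ∈ UH x p s := by
  have e : (fun x : XM Γ => c ∈ UH x p s) = fun x => eqh x p s.1 c ∧
      ((eqh x p s.1 s.2 ∧ gp x p s.1 s.2 ≤ gp x p s.1 c) ∨
        (¬ eqh x p s.1 s.2 ∧ gp x p s.1 s.1 ≤ gp x p s.1 c)) := by
    funext x
    apply propext
    show (eqh x p s.1 c ∧ kh x p s.1 s.2 ≤ gp x p s.1 c) ↔ _
    refine and_congr Iff.rfl ?_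
    unfold kh
    by_cases h : eqh x p s.1 s.2
    · rw [if_pos h]
      exact ⟨fun h1 => Or.inl ⟨h, h1⟩, fun h1 => h1.elim (fun h2 => h2.2) fun h2 => absurd h h2.1⟩
    · rw [if_neg h]
      exact ⟨fun h1 => Or.inr ⟨h, h1⟩, fun h1 => h1.elim (fun h2 => absurd h2.1 h) fun h2 => h2.2⟩
  rw [e]
  exact (m_eqh _ _ _).and (((m_eqh _ _ _).and (le_r (m_gp _ _ _) (m_gp _ _ _))).or
    ((m_eqh _ _ _).not.and (le_r (m_gp _ _ _) (m_gp _ _ _))))

theorem m_UHe (p : ℕ) (s t : ℕ × ℕ) : Measurable fun x : XM Γ => UH x p s = UH x p t := by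
  have e : (fun x : XM Γ => UH x p s = UH x p t) =
      fun x => ∀ c, c ∈ UH x p s ↔ c ∈ UH x p t := by
    funext x
    exact propext Set.ext_iff
  rw [e]
  exact Measurable.forall fun c => (m_UH p s c).iff (m_UH p t c)

theorem m_UHs (p : ℕ) (s t : ℕ × ℕ) : Measurable fun x : XM Γ => UH x p s ⊂ UH x p t := by
  have e : (fun x : XM Γ => UH x p s ⊂ UH x p t) =
      fun x => (∀ c, c ∈ UH x p s → c ∈ UH x p t) ∧ ¬ ∀ c, c ∈ UH x p t → c ∈ UH x p s := by
    funext x
    rfl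
  rw [e]
  exact (Measurable.forall fun c => (m_UH p s c).imp (m_UH p t c)).and
    (Measurable.forall fun c => (m_UH p t c).imp (m_UH p s c)).not

theorem m_PrH (p : ℕ) (e : ℕ → LH Γ) (r : ℕ → ℝ) (s : ℕ × ℕ) (n : ℕ) :
    Measurable fun x : XM Γ => PrH x p e r s n := by
  cases n with
  | zero => exact Measurable.exists fun w => m_UHe p s (w, w)
  | succ n =>
    have hl : ∀ w, Measurable fun x : XM Γ => lh x p w = e (n / 3) := fun w =>
      measurableSet_setOfPred.1 (m_lh p w (measurableSet_singleton (e (n / 3))))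
    exact (measurable_const.and (Measurable.exists fun w => (m_UHe p s (w, w)).and (hl w))).or
      ((measurable_const.and (Measurable.exists fun a => Measurable.exists fun b =>
        (m_eqh p a b).and ((m_UHe p s (a, b)).and (eq_r (m_gp p a b) measurable_const)))).or
      (measurable_const.and (Measurable.exists fun w => (m_UHe p s (w, w)).and (r_3 (n / 3) w))))

end cnt

/-! ### Functions of the codes -/

theorem q_enh (a m : ℕ) : Measurable fun y : XG Γ => enh y a = m :=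
  meas_nth (fun (y : XG Γ) m => y.2.2 0 m = true) (fun m => m_3 0 m) a m

theorem q_ixh (a m : ℕ) : Measurable fun y : XG Γ => ixh y a = m :=
  meas_nth (fun (y : XG Γ) i => y.2.2 (3 * i + 1) (enh y a) = true)
    (fun i => m_sub (fun y : XG Γ => enh y a) (q_enh a) (fun n y => y.2.2 (3 * i + 1) n = true)
      fun n => m_3 _ n) 0 m

theorem q_ndh (a b K : ℕ) : Measurable fun y : XG Γ => ndh y a b K := by
  have h1 : ∀ K a : ℕ, Measurable fun y : XG Γ => (K = a ∨ y.1 K a = true) := fun K a =>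
    measurable_const.or (m_1 K a)
  exact (h1 K a).and ((h1 K b).and (Measurable.forall fun K' => (h1 K' a).imp ((h1 K' b).imp
    (h1 K' K))))

theorem q_ndh' (a b K : ℕ) : Measurable fun y : XG Γ => ndh y (enh y a) (enh y b) K :=
  m_sub (fun y : XG Γ => enh y a) (q_enh a) (fun n y => ndh y n (enh y b) K) fun n =>
    m_sub (fun y : XG Γ => enh y b) (q_enh b) (fun n' y => ndh y n n' K) fun n' => q_ndh n n' K

theorem q_jxh (a b m : ℕ) : Measurable fun y : XG Γ => jxh y a b = m :=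
  meas_nth (fun (y : XG Γ) j => ∃ K, ndh y (enh y a) (enh y b) K ∧ y.2.2 (3 * j + 2) K = true)
    (fun _ => Measurable.exists fun K => (q_ndh' a b K).and (m_3 _ K)) 0 m

theorem q_act (γ : Γ) (a m : ℕ) : Measurable fun y : XG Γ => y.2.1 γ (enh y a) = m :=
  m_sub (fun y : XG Γ => enh y a) (q_enh a) (fun n y => y.2.1 γ n = m) fun n => m_2 γ n m

theorem meas_DH [Group Γ] (e : ℕ → LH Γ) (r : ℕ → ℝ) : Measurable (DH e r : XG Γ → XM Γ) := by
  refine Measurable.prodMk ?_ (Measurable.prodMk ?_ ?_)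
  · refine measurable_pi_iff.2 fun a => measurable_pi_iff.2 fun b => ?_
    exact r_sub (t := fun y : XG Γ => ixh y a) (q_ixh a)
      (F := fun n y => Gh e r n (ixh y b) (jxh y a b)) fun n =>
      r_sub (t := fun y : XG Γ => ixh y b) (q_ixh b)
        (F := fun n' y => Gh e r n n' (jxh y a b)) fun n' =>
        r_sub (t := fun y : XG Γ => jxh y a b) (q_jxh a b)
          (F := fun n'' _ => Gh e r n n' n'') fun n'' => measurable_const
  · refine measurable_pi_iff.2 fun γ => measurable_pi_iff.2 fun a => n_of fun m => ?_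
    exact meas_nth (fun (y : XG Γ) k => enh y k = y.2.1 γ (enh y a))
      (fun k => eq_n (q_enh k) (q_act γ a)) 0 m
  · refine measurable_pi_iff.2 fun i => measurable_pi_iff.2 fun a => b_of ?_
    exact m_sub (fun y : XG Γ => enh y a) (q_enh a) (fun n y => y.2.2 (3 * i + 3) n = true)
      fun n => m_3 _ n

theorem q_fH (e : ℕ → LH Γ) (s : ℕ × ℕ) (m : ℕ) : Measurable fun y : XG Γ => fH e y s = m := by
  have e1 : (fun y : XG Γ => fH e y s = m) = fun y =>
      (cst (e (ixh y s.1)).1 (e (ixh y s.2)).1 ∧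
        Nat.nth (fun K => ndh y (enh y s.1) (enh y s.2) K) 0 = m) ∨
      (¬ cst (e (ixh y s.1)).1 (e (ixh y s.2)).1 ∧ enh y s.1 = m) := by
    funext y
    apply propext
    unfold fH
    by_cases h : cst (e (ixh y s.1)).1 (e (ixh y s.2)).1
    · rw [if_pos h]
      exact ⟨fun h1 => Or.inl ⟨h, h1⟩, fun h1 => h1.elim (fun h2 => h2.2) fun h2 => absurd h h2.1⟩
    · rw [if_neg h]
      exact ⟨fun h1 => Or.inr ⟨h, h1⟩, fun h1 => h1.elim (fun h2 => absurd h2.1 h) fun h2 => h2.2⟩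
  have hc : Measurable fun y : XG Γ => cst (e (ixh y s.1)).1 (e (ixh y s.2)).1 :=
    m_sub (fun y : XG Γ => ixh y s.1) (q_ixh s.1) (fun n y => cst (e n).1 (e (ixh y s.2)).1)
      fun n => m_sub (fun y : XG Γ => ixh y s.2) (q_ixh s.2) (fun n' _ => cst (e n).1 (e n').1)
        fun n' => measurable_const
  rw [e1]
  exact (hc.and (meas_nth (fun (y : XG Γ) K => ndh y (enh y s.1) (enh y s.2) K)
    (fun K => q_ndh' s.1 s.2 K) 0 m)).or (hc.not.and (q_enh s.1 m))

/-- the coding relation is Borel -/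
theorem q_codH [Group Γ] [Countable Γ] (e : ℕ → LH Γ) (r : ℕ → ℝ) (p : ℕ) :
    Measurable fun y : XG Γ => CodH e r (DH e r y) p (fH e y) y := by
  have e1 : (fun y : XG Γ => CodH e r (DH e r y) p (fH e y) y) = fun y =>
      (∀ m, ∃ s, fH e y s = m) ∧
      (∀ s t, fH e y s = fH e y t ↔ UH (DH e r y) p s = UH (DH e r y) p t) ∧
      (∀ s t, y.1 (fH e y s) (fH e y t) = true ↔ UH (DH e r y) p t ⊂ UH (DH e r y) p s) ∧
      (∀ (γ : Γ) (a b : ℕ), y.2.1 γ (fH e y (a, b)) =
        fH e y ((DH e r y).2.1 γ a, (DH e r y).2.1 γ b)) ∧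
      (∀ n s, y.2.2 n (fH e y s) = true ↔ PrH (DH e r y) p e r s n) := by
    funext y
    exact propext ⟨fun h => ⟨h.sur, h.eq, h.lt, h.act, h.pr⟩,
      fun ⟨h1, h2, h3, h4, h5⟩ => ⟨h1, h2, h3, h4, h5⟩⟩
  have hD := meas_DH e r
  rw [e1]
  refine (Measurable.forall fun m => Measurable.exists fun s => q_fH e s m).and ?_
  refine (Measurable.forall fun s => Measurable.forall fun t =>
    (eq_n (q_fH e s) (q_fH e t)).iff ((m_UHe p s t).comp hD)).and ?_
  refine (Measurable.forall fun s => Measurable.forall fun t => Measurable.iff ?_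
    ((m_UHs p t s).comp hD)).and ?_
  · exact m_sub (fun y : XG Γ => fH e y s) (q_fH e s) (fun n y => y.1 n (fH e y t) = true)
      fun n => m_sub (fun y : XG Γ => fH e y t) (q_fH e t) (fun n' y => y.1 n n' = true)
        fun n' => m_1 n n'
  refine (Measurable.forall fun γ => Measurable.forall fun a => Measurable.forall fun b =>
    eq_n ?_ ?_).and ?_
  · exact fun m => m_sub (fun y : XG Γ => fH e y (a, b)) (q_fH e (a, b))
      (fun n y => y.2.1 γ n = m) fun n => m_2 γ n m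
  · exact fun m => m_sub (fun y : XG Γ => (DH e r y).2.1 γ a)
      (fun n => (r_2 γ a n).comp hD) (fun n y => fH e y (n, (DH e r y).2.1 γ b) = m) fun n =>
      m_sub (fun y : XG Γ => (DH e r y).2.1 γ b) (fun n => (r_2 γ b n).comp hD)
        (fun n' y => fH e y (n, n') = m) fun n' => q_fH e (n, n') m
  exact Measurable.forall fun n => Measurable.forall fun s => Measurable.iff
    (m_sub (fun y : XG Γ => fH e y s) (q_fH e s) (fun k y => y.2.2 n k = true) fun k => m_3 n k)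
    ((m_PrH p e r s n).comp hD)

theorem t_HYM : S_HYM := fun Γ _ _ e r =>
  ⟨meas_DH e r, measurableSet_setOfPred.2 (Measurable.exists fun p => q_codH e r p)⟩

/-! ### Isomorphism of metric structures -/

theorem isoM_symm {σ : Equiv.Perm ℕ} {x y : XM Γ} (h : IsoM σ x y) : IsoM σ.symm y x := by
  obtain ⟨h1, h2, h3⟩ := h
  refine ⟨fun a b => ?_, fun γ m => ?_, fun i m => ?_⟩
  · rw [← h1, σ.apply_symm_apply, σ.apply_symm_apply]
  · have := h2 γ (σ.symm m)
    rw [σ.apply_symm_apply] at this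
    rw [this, σ.symm_apply_apply]
  · rw [← h3, σ.apply_symm_apply]

theorem isoM_trans {σ τ : Equiv.Perm ℕ} {x y z : XM Γ} (h : IsoM σ x y) (h' : IsoM τ y z) :
    IsoM (σ.trans τ) x z :=
  ⟨fun a b => (h'.1 _ _).trans (h.1 a b), fun γ m => by
    show z.2.1 γ (τ (σ m)) = τ (σ (x.2.1 γ m))
    rw [h'.2.1, h.2.1], fun i m => (h'.2.2 i _).trans (h.2.2 i m)⟩

theorem bsM [Countable Γ] : BorelSpace (XM Γ) := by
  have h0 : BorelSpace (ℕ → ℝ) := Pi.borelSpace
  have s0 : SecondCountableTopology (ℕ → ℝ) := inferInstance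
  have h1 : BorelSpace (ℕ → ℕ → ℝ) := Pi.borelSpace
  have h2 : BorelSpace (Γ → ℕ → ℕ) := inferInstance
  have h3 : BorelSpace ((Γ → ℕ → ℕ) × (ℕ → ℕ → Bool)) := Prod.borelSpace
  exact Prod.borelSpace

/-- isomorphism of a Borel family of structures is analytic -/
theorem analytic_isoM [Countable Γ] (u : (ℕ → Bool) → XM Γ) (hu : Measurable u) :
    AnalyticSet {p : (ℕ → Bool) × (ℕ → Bool) | ∃ σ : Equiv.Perm ℕ, IsoM σ (u p.1) (u p.2)} := by
  set Ω : Type := ((ℕ → Bool) × (ℕ → Bool)) × ((ℕ → ℕ) × (ℕ → ℕ)) with hΩ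
  have m1 : ∀ a b : ℕ, Measurable fun q : Ω => q.2.1 a = b := fun a b => by
    have h : Measurable fun q : Ω => q.2.1 a :=
      (measurable_pi_apply a).comp (measurable_fst.comp measurable_snd)
    exact measurableSet_setOfPred.1 (h (measurableSet_singleton b))
  have m2 : ∀ a b : ℕ, Measurable fun q : Ω => q.2.2 a = b := fun a b => by
    have h : Measurable fun q : Ω => q.2.2 a :=
      (measurable_pi_apply a).comp (measurable_snd.comp measurable_snd)
    exact measurableSet_setOfPred.1 (h (measurableSet_singleton b))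
  have mu : Measurable fun q : Ω => u q.1.1 := hu.comp (measurable_fst.comp measurable_fst)
  have mv : Measurable fun q : Ω => u q.1.2 := hu.comp (measurable_snd.comp measurable_fst)
  let P : Ω → Prop := fun q => (∀ a b, q.2.1 a = b → q.2.2 b = a) ∧
    (∀ a b, q.2.2 a = b → q.2.1 b = a) ∧
    (∀ a b c d, q.2.1 a = c → q.2.1 b = d → (u q.1.2).1 c d = (u q.1.1).1 a b) ∧
    (∀ (γ : Γ) (a b c d : ℕ), q.2.1 a = c → q.2.1 b = d → (u q.1.1).2.1 γ a = b →
      (u q.1.2).2.1 γ c = d) ∧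
    ∀ i a c, q.2.1 a = c → ((u q.1.2).2.2 i c = true ↔ (u q.1.1).2.2 i a = true)
  have hP : Measurable P := by
    refine (Measurable.forall fun a => Measurable.forall fun b => (m1 a b).imp (m2 b a)).and ?_
    refine (Measurable.forall fun a => Measurable.forall fun b => (m2 a b).imp (m1 b a)).and ?_
    refine (Measurable.forall fun a => Measurable.forall fun b =>
      Measurable.forall fun c => Measurable.forall fun d =>
        (m1 a c).imp ((m1 b d).imp (eq_r ?_ ?_))).and ?_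
    · exact (r_1 c d).comp mv
    · exact (r_1 a b).comp mu
    refine (Measurable.forall fun γ => Measurable.forall fun a => Measurable.forall fun b =>
      Measurable.forall fun c => Measurable.forall fun d => (m1 a c).imp ((m1 b d).imp
        (Measurable.imp ?_ ?_))).and ?_
    · exact (r_2 γ a b).comp mu
    · exact (r_2 γ c d).comp mv
    refine Measurable.forall fun i => Measurable.forall fun a => Measurable.forall fun c =>
      (m1 a c).imp (Measurable.iff ?_ ?_)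
    · exact (r_3 i c).comp mv
    · exact (r_3 i a).comp mu
  have h2 : {p : (ℕ → Bool) × (ℕ → Bool) | ∃ σ : Equiv.Perm ℕ, IsoM σ (u p.1) (u p.2)} =
      Prod.fst '' {q : Ω | P q} := by
    ext p
    constructor
    · rintro ⟨σ, hσ⟩
      refine ⟨(p, (⇑σ, ⇑σ.symm)), ⟨?_, ?_, ?_, ?_, ?_⟩, rfl⟩
      · rintro a b rfl
        exact σ.symm_apply_apply a
      · rintro a b rfl
        exact σ.apply_symm_apply a
      · rintro a b c d rfl rfl
        exact hσ.1 a b
      · rintro γ a b c d rfl rfl h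
        show (u p.2).2.1 γ (σ a) = σ b
        rw [hσ.2.1, h]
      · rintro i a c rfl
        exact Bool.eq_iff_iff.1 (hσ.2.2 i a)
    · rintro ⟨q, ⟨h1, h2, h3, h4, h5⟩, rfl⟩
      refine ⟨⟨q.2.1, q.2.2, fun a => h1 a _ rfl, fun a => h2 a _ rfl⟩, ?_, ?_, ?_⟩
      · exact fun a b => h3 a b _ _ rfl rfl
      · exact fun γ m => h4 γ m _ _ _ rfl rfl rfl
      · exact fun i m => Bool.eq_iff_iff.2 (h5 i m _ rfl)
  rw [h2]
  exact (measurableSet_setOfPred.2 hP).analyticSet_image measurable_fst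

theorem iso_lh {x y : XM Γ} {σ : Equiv.Perm ℕ} (h : IsoM σ x y) (p u : ℕ) :
    lh x p u = lh y (σ p) (σ u) := by
  refine Prod.ext (funext fun γ => ?_) (funext fun γ => ?_)
  · show x.1 u (x.2.1 γ p) = y.1 (σ u) (y.2.1 γ (σ p))
    rw [h.2.1, h.1]
  · show x.1 p (x.2.1 γ p) = y.1 (σ p) (y.2.1 γ (σ p))
    rw [h.2.1, h.1]

theorem iso_gp {x y : XM Γ} {σ : Equiv.Perm ℕ} (h : IsoM σ x y) (p a b : ℕ) :
    gp x p a b = gp y (σ p) (σ a) (σ b) := by
  unfold gp
  rw [h.1, h.1, h.1]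

theorem t_HYP (h : S_OUTT) (hB : S_HYB) (hM : S_HYM) : S_HYP := by
  intro Γ _ _ B hBm hHY hinv
  have b1 : BorelSpace (XM Γ) := bsM
  have b2 : BorelSpace (XG Γ) := bsG
  have b3 : BorelSpace (LH Γ × ℝ) := Prod.borelSpace
  set J : (ℕ × ℕ) × (ℕ × ℕ) → B → LH Γ × ℝ :=
    fun i x => (lh x.1 i.1.1 i.1.2, gp x.1 i.1.1 i.2.1 i.2.2) with hJ
  by_cases hc : (⋃ i, Set.range (J i)).Countable
  swap
  · right
    have hS : StandardBorelSpace B := hBm.standardBorel
    obtain ⟨g, h1, h2⟩ := Pool.Agent.H565R2.FO2.perfect_of_uncountable (Y := B) (X := XM Γ)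
      (fun x => x.1) measurable_subtype_coe J
      (fun i => ((m_lh _ _).comp measurable_subtype_coe).prodMk
        ((m_gp _ _ _).comp measurable_subtype_coe))
      (fun x y => ∃ σ : Equiv.Perm ℕ, IsoM σ x.1 y.1)
      (by
        rintro ⟨x, hx⟩ ⟨y, hy⟩ ⟨σ, hσ⟩ i
        refine ⟨((σ i.1.1, σ i.1.2), (σ i.2.1, σ i.2.2)), ?_⟩
        exact Prod.ext (iso_lh hσ _ _) (iso_gp hσ _ _ _)) hc
    refine ⟨fun a => (g a).1, h1, fun a => (g a).2, fun a b hab => ?_⟩
    by_contra hne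
    exact h2 a b hne hab
  · obtain ⟨e, r, her⟩ : ∃ (e : ℕ → LH Γ) (r : ℕ → ℝ), ∀ x ∈ B, Covh e r x := by
      rcases (⋃ i, Set.range (J i)).eq_empty_or_nonempty with h0 | h0
      · refine ⟨fun _ => (fun _ => 0, fun _ => 0), fun _ => 0, fun x hx => ?_⟩
        have h1 : J ((0, 0), (0, 0)) ⟨x, hx⟩ ∈ ⋃ i, Set.range (J i) :=
          mem_iUnion.2 ⟨_, ⟨_, rfl⟩⟩
        rw [h0] at h1
        exact absurd h1 (notMem_empty _)
      · obtain ⟨g, hg⟩ := hc.exists_eq_range h0
        refine ⟨fun i => (g i).1, fun i => (g i).2, fun x hx => ⟨fun p u => ?_, fun p a b => ?_⟩⟩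
        · have h1 : J ((p, u), (0, 0)) ⟨x, hx⟩ ∈ ⋃ i, Set.range (J i) :=
            mem_iUnion.2 ⟨_, ⟨_, rfl⟩⟩
          rw [hg] at h1
          obtain ⟨i, hi⟩ := h1
          exact ⟨i, (congrArg Prod.fst hi).symm⟩
        · have h1 : J ((p, 0), (a, b)) ⟨x, hx⟩ ∈ ⋃ i, Set.range (J i) :=
            mem_iUnion.2 ⟨_, ⟨_, rfl⟩⟩
          rw [hg] at h1
          obtain ⟨i, hi⟩ := h1
          exact ⟨i, (congrArg Prod.snd hi).symm⟩
    obtain ⟨hD, hCm⟩ := hM Γ e r
    have HB := hB Γ e r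
    set A : Set (XG Γ) := {y | DH e r y ∈ B ∧ ∃ p, CodH e r (DH e r y) p (fH e y) y} with hA
    have key : ∀ {x : XM Γ} {p : ℕ} {f : ℕ × ℕ → ℕ} {y : XG Γ}, x ∈ B → CodH e r x p f y →
        y ∈ A ∧ ∃ θ : Equiv.Perm ℕ, IsoM θ (DH e r y) x := by
      intro x p f y hx hcd
      obtain ⟨θ, h1, h2⟩ := HB.dec x p f y (hHY x hx) (her x hx) hcd
      exact ⟨⟨hinv x hx _ _ (isoM_symm h1), _, h2⟩, θ, h1⟩
    have hAm : MeasurableSet A := (hD hBm).inter hCm
    have hAT : ∀ y ∈ A, TO y := by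
      rintro y ⟨h1, p, h2⟩
      exact HB.semi _ _ _ _ (hHY _ h1) h2
    have hAi : ∀ y ∈ A, ∀ (y' : XG Γ) (σ : Equiv.Perm ℕ), Isom σ y y' → y' ∈ A := by
      rintro y ⟨h1, p, h2⟩ y' σ hσ
      exact (key h1 (HB.trans _ _ _ _ _ _ h2 hσ)).1
    refine transfer (EX := fun x y => ∃ σ : Equiv.Perm ℕ, Isom σ x y)
      (EY := fun x y => ∃ σ : Equiv.Perm ℕ, IsoM σ x y) ?_ ?_ ?_ (DH e r) hD A B ?_ ?_ ?_ ?_ ?_
      (h Γ A hAm hAT hAi)
    · rintro x y ⟨σ, hσ⟩
      exact ⟨_, iso_symm hσ⟩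
    · rintro x y z ⟨σ, hσ⟩ ⟨τ, hτ⟩
      exact ⟨_, iso_trans hσ hτ⟩
    · rintro x y z ⟨σ, hσ⟩ ⟨τ, hτ⟩
      exact ⟨_, isoM_trans hσ hτ⟩
    · exact fun y hy => hy.1
    · intro x hx
      obtain ⟨f, y, hy⟩ := HB.ex x 0 (hHY x hx)
      obtain ⟨h1, h2⟩ := key hx hy
      exact ⟨y, h1, h2⟩
    · rintro y y' ⟨h1, p, h2⟩ ⟨σ, hσ⟩
      exact (key h1 (HB.trans _ _ _ _ _ _ h2 (iso_symm hσ))).2
    · rintro y ⟨h1, p, h2⟩
      have hex : ∀ p : ℕ, ∃ (c : XG Γ) (f : ℕ × ℕ → ℕ), CodH e r (DH e r y) p f c := fun p => by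
        obtain ⟨f, c, hcd⟩ := HB.ex (DH e r y) p (hHY _ h1)
        exact ⟨c, f, hcd⟩
      choose c f hcf using hex
      refine ⟨Set.range c, Set.countable_range c, ?_⟩
      rintro y' ⟨h3, p', h4⟩ ⟨σ, hσ⟩
      exact ⟨c (σ.symm p'), Set.mem_range_self _,
        HB.uni _ _ _ _ _ _ (hcf _) (HB.pull _ _ _ _ _ _ h4 hσ)⟩
    · exact fun u hu => analytic_isoM u hu

end Pool.Agent.Y454.TH
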