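import Pool.Agent.Y560.TH.Cst2

/-!
Project TH: circular orders with a group action which may reverse the orientation (copy of
Pool/Agent/H70TH/Cod.lean by helper70, with the changes for the reversing elements). The linear order
with a least element attached to a circular order, the universal cover, and its coding by structures
with an action of a free group.
-/

set_option autoImplicit false

namespace Pool.Agent.Y454.TH

open Pool.Agent.H566P (XG Isom)
open Pool.Agent.Y560.TH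

variable {Γ : Type}

/-- the linear order starting at `p` -/
def ltp (x : XC Γ) (p a b : ℕ) : Prop := a ≠ b ∧ (a = p ∨ x.1 p a b = true)

section order

variable [Group Γ] {x : XC Γ}

theorem cdist (h : COR x) {a b c : ℕ} (h1 : x.1 a b c = true) : a ≠ b ∧ b ≠ c ∧ a ≠ c := by
  have key : ∀ a b, x.1 a b a ≠ true := fun a b h2 => by
    have h3 := h.asym _ _ _ h2
    rw [h2] at h3
    exact absurd h3 (by decide)
  refine ⟨?_, ?_, ?_⟩
  · rintro rfl
    exact key _ _ (h.cyc _ _ _ h1)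
  · rintro rfl
    exact key _ _ (h.cyc _ _ _ (h.cyc _ _ _ h1))
  · rintro rfl
    exact key _ _ h1

theorem asym' (h : COR x) {a b c : ℕ} (h1 : x.1 a b c = true) (h2 : x.1 c b a = true) : False := by
  have h3 := h.asym _ _ _ h1
  rw [h2] at h3
  exact absurd h3 (by decide)

theorem ltp_irr (p a : ℕ) : ¬ ltp x p a a := fun h => h.1 rfl

theorem ltp_min (h : COR x) (p a : ℕ) : ¬ ltp x p a p := by
  rintro ⟨h1, h2 | h2⟩
  · exact h1 h2
  · exact (cdist h h2).2.2 rfl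

theorem ltp_tr (h : COR x) {p a b c : ℕ} (h1 : ltp x p a b) (h2 : ltp x p b c) : ltp x p a c := by
  obtain ⟨n1, h1⟩ := h1
  obtain ⟨n2, h2⟩ := h2
  rcases h1 with rfl | h1
  · rcases h2 with rfl | h2
    · exact absurd rfl n1
    · exact ⟨(cdist h h2).2.2, Or.inl rfl⟩
  · rcases h2 with rfl | h2
    · exact absurd rfl (cdist h h1).2.2
    · have h3 := h.tr _ _ _ _ h1 h2
      exact ⟨(cdist h h3).2.1, Or.inr h3⟩

theorem ltp_tot (h : COR x) {p a b : ℕ} (hab : a ≠ b) : ltp x p a b ∨ ltp x p b a := by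
  by_cases h1 : a = p
  · exact Or.inl ⟨hab, Or.inl h1⟩
  by_cases h2 : b = p
  · exact Or.inr ⟨hab.symm, Or.inl h2⟩
  rcases h.tot p a b (Ne.symm h1) hab (Ne.symm h2) with h3 | h3
  · exact Or.inl ⟨hab, Or.inr h3⟩
  · exact Or.inr ⟨hab.symm, Or.inr (h.cyc _ _ _ (h.cyc _ _ _ h3))⟩

theorem ltp_asym (h : COR x) {p a b : ℕ} (h1 : ltp x p a b) (h2 : ltp x p b a) : False :=
  ltp_irr p a (ltp_tr h h1 h2)

theorem lin_cyc (h : COR x) {p a b c : ℕ} (h1 : ltp x p a b) (h2 : ltp x p b c) :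
    x.1 a b c = true := by
  obtain ⟨n1, h1⟩ := h1
  obtain ⟨n2, h2⟩ := h2
  rcases h1 with rfl | h1
  · rcases h2 with rfl | h2
    · exact absurd rfl n1
    · exact h2
  · rcases h2 with rfl | h2
    · exact absurd rfl (cdist h h1).2.2
    · have e1 : x.1 b c p = true := h.cyc _ _ _ h2
      have e2 : x.1 b p a = true := h.cyc _ _ _ (h.cyc _ _ _ h1)
      exact h.cyc _ _ _ (h.cyc _ _ _ (h.tr _ _ _ _ e1 e2))

/-- the circular order is the circular order of the linear order -/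
theorem cyc_iff (h : COR x) (p a b c : ℕ) : x.1 a b c = true ↔
    (ltp x p a b ∧ ltp x p b c) ∨ (ltp x p b c ∧ ltp x p c a) ∨ (ltp x p c a ∧ ltp x p a b) := by
  constructor
  · intro h1
    obtain ⟨n1, n2, n3⟩ := cdist h h1
    rcases ltp_tot h (p := p) n1 with a1 | a1
    · rcases ltp_tot h (p := p) n2 with a2 | a2
      · exact Or.inl ⟨a1, a2⟩
      · rcases ltp_tot h (p := p) n3 with a3 | a3
        · -- a < c < b
          have h2 := lin_cyc h a3 a2
          exact (asym' h h1 (h.cyc _ _ _ h2)).elim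
        · exact Or.inr (Or.inr ⟨a3, a1⟩)
    · rcases ltp_tot h (p := p) n2 with a2 | a2
      · rcases ltp_tot h (p := p) n3 with a3 | a3
        · -- b < a < c
          have h2 := lin_cyc h a1 a3
          exact (asym' h h1 (h.cyc _ _ _ (h.cyc _ _ _ h2))).elim
        · exact Or.inr (Or.inl ⟨a2, a3⟩)
      · -- c < b < a
        have h2 := lin_cyc h a2 a1
        exact (asym' h h1 h2).elim
  · rintro (⟨h1, h2⟩ | ⟨h1, h2⟩ | ⟨h1, h2⟩)
    · exact lin_cyc h h1 h2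
    · exact h.cyc _ _ _ (h.cyc _ _ _ (lin_cyc h h1 h2))
    · exact h.cyc _ _ _ (lin_cyc h h1 h2)

end order

/-- `γ` preserves the orientation -/
def Pr (x : XC Γ) (γ : Γ) : Prop :=
  ∀ a b c, x.1 a b c = true → x.1 (x.2.1 γ a) (x.2.1 γ b) (x.2.1 γ c) = true

open Classical in
/-- the level of the lift of `γ` -/
noncomputable def lv (x : XC Γ) (p : ℕ) (γ : Γ) (a : ℕ) (n : ℤ) : ℤ :=
  if Pr x γ then (if ltp x p (x.2.1 γ a) (x.2.1 γ p) then n + 1 else n)
  else (if ltp x p (x.2.1 γ p) (x.2.1 γ a) then -n - 1 else -n)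

theorem lv_inj (x : XC Γ) (p : ℕ) (γ : Γ) (a : ℕ) {n m : ℤ} (h : lv x p γ a n = lv x p γ a m) :
    n = m := by
  unfold lv at h
  split_ifs at h <;> omega

theorem lv_sur (x : XC Γ) (p : ℕ) (γ : Γ) (a : ℕ) (m : ℤ) : ∃ n, lv x p γ a n = m := by
  unfold lv
  split_ifs
  · exact ⟨m - 1, by omega⟩
  · exact ⟨m, rfl⟩
  · exact ⟨-m - 1, by omega⟩
  · exact ⟨-m, by omega⟩

/-- the order of the universal cover -/
def lex (x : XC Γ) (p : ℕ) (u w : ℕ × ℤ) : Prop := u.2 < w.2 ∨ (u.2 = w.2 ∧ ltp x p u.1 w.1)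

/-- the acting group -/
abbrev Dl (Γ : Type) : Type := FreeGroup (Option Γ)

/-- the deck transformation -/
def tg : Dl Γ := FreeGroup.of none

/-- the lift of `γ` -/
def sg (γ : Γ) : Dl Γ := FreeGroup.of (some γ)

/-- `y` is the code of `x` with the named point `p`, via `f` -/
structure Cod (x : XC Γ) (p : ℕ) (f : ℕ × ℤ → ℕ) (y : XG (Dl Γ)) : Prop where
  bij : Function.Bijective f
  lt : ∀ u w, y.1 (f u) (f w) = true ↔ lex x p u w
  one : ∀ m, y.2.1 1 m = m
  mul : ∀ γ δ m, y.2.1 (γ * δ) m = y.2.1 γ (y.2.1 δ m)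
  t : ∀ a n, y.2.1 tg (f (a, n)) = f (a, n + 1)
  s : ∀ γ a n, y.2.1 (sg γ) (f (a, n)) = f (x.2.1 γ a, lv x p γ a n)
  p0 : ∀ a n, y.2.2 0 (f (a, n)) = true ↔ n = 0
  p1 : ∀ a n, y.2.2 1 (f (a, n)) = true ↔ n = 0 ∧ a = p
  pi : ∀ i a n, y.2.2 (i + 2) (f (a, n)) = x.2.2 i a

/-- induction for actions -/
theorem act_ind {P : Dl Γ → Prop} (h1 : P 1) (ht : P tg) (hs : ∀ γ, P (sg γ))
    (hi : ∀ δ, P δ → P δ⁻¹) (hm : ∀ γ δ, P γ → P δ → P (γ * δ)) (δ : Dl Γ) : P δ := by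
  have hg : ∀ o : Option Γ, P (FreeGroup.of o) := by
    rintro (_ | γ)
    · exact ht
    · exact hs γ
  induction δ using FreeGroup.induction_on with
  | C1 => exact h1
  | of o => exact hg o
  | inv_of o _ => exact hi _ (hg o)
  | mul γ δ h1 h2 => exact hm _ _ h1 h2

theorem Cod.inv_l {x : XC Γ} {p : ℕ} {f : ℕ × ℤ → ℕ} {y : XG (Dl Γ)} (h : Cod x p f y)
    (δ : Dl Γ) (m : ℕ) : y.2.1 δ⁻¹ (y.2.1 δ m) = m := by
  rw [← h.mul, inv_mul_cancel, h.one]

theorem Cod.inv_r {x : XC Γ} {p : ℕ} {f : ℕ × ℤ → ℕ} {y : XG (Dl Γ)} (h : Cod x p f y)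
    (δ : Dl Γ) (m : ℕ) : y.2.1 δ (y.2.1 δ⁻¹ m) = m := by
  rw [← h.mul, mul_inv_cancel, h.one]

/-- two codes of the same structure are isomorphic -/
theorem iso_of_cod {x : XC Γ} {p : ℕ} {f f' : ℕ × ℤ → ℕ} {y y' : XG (Dl Γ)} (h : Cod x p f y)
    (h' : Cod x p f' y') : ∃ σ : Equiv.Perm ℕ, Isom σ y y' := by
  set F : ℕ × ℤ ≃ ℕ := Equiv.ofBijective f h.bij with hF
  set F' : ℕ × ℤ ≃ ℕ := Equiv.ofBijective f' h'.bij with hF'
  have hσ : ∀ u, (F.symm.trans F') (f u) = f' u := by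
    intro u
    show F' (F.symm (F u)) = f' u
    rw [F.symm_apply_apply]
    rfl
  have hsur : ∀ m, ∃ u, f u = m := h.bij.2
  refine ⟨F.symm.trans F', fun m n => ?_, fun δ => ?_, fun i m => ?_⟩
  · obtain ⟨u, rfl⟩ := hsur m
    obtain ⟨w, rfl⟩ := hsur n
    rw [hσ, hσ, Bool.eq_iff_iff, h'.lt, h.lt]
  · refine act_ind (P := fun δ => ∀ m, y'.2.1 δ ((F.symm.trans F') m) =
      (F.symm.trans F') (y.2.1 δ m)) (fun m => ?_) (fun m => ?_) (fun γ m => ?_)
      (fun δ hδ m => ?_) (fun γ δ h1 h2 m => ?_) δ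
    · rw [h.one, h'.one]
    · obtain ⟨⟨a, n⟩, rfl⟩ := hsur m
      rw [hσ, h.t, hσ, h'.t]
    · obtain ⟨⟨a, n⟩, rfl⟩ := hsur m
      rw [hσ, h.s, hσ, h'.s]
    · have h3 := hδ (y.2.1 δ⁻¹ m)
      rw [h.inv_r] at h3
      rw [← h3, h'.inv_l]
    · rw [h.mul, h'.mul, h2, h1]
  · obtain ⟨⟨a, n⟩, rfl⟩ := hsur m
    rw [hσ, Bool.eq_iff_iff]
    obtain _ | _ | i := i
    · rw [h'.p0, h.p0]
    · rw [h'.p1, h.p1]
    · rw [h'.pi, h.pi]

theorem Cod.trans {x : XC Γ} {p : ℕ} {f : ℕ × ℤ → ℕ} {y y' : XG (Dl Γ)} (h : Cod x p f y)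
    {σ : Equiv.Perm ℕ} (hσ : Isom σ y y') : Cod x p (fun u => σ (f u)) y' := by
  obtain ⟨h1, h2, h3⟩ := hσ
  refine ⟨σ.bijective.comp h.bij, fun u w => ?_, fun m => ?_, fun γ δ m => ?_, fun a n => ?_,
    fun γ a n => ?_, fun a n => ?_, fun a n => ?_, fun i a n => ?_⟩
  · rw [h1, h.lt]
  · have := h2 1 (σ.symm m)
    rw [h.one, σ.apply_symm_apply] at this
    exact this
  · obtain ⟨k, rfl⟩ := σ.surjective m
    rw [h2, h2, h2, h.mul]
  · rw [h2, h.t]
  · rw [h2, h.s]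
  · rw [h3, h.p0]
  · rw [h3, h.p1]
  · rw [h3, h.pi]

theorem ltp_iso {x x' : XC Γ} {θ : Equiv.Perm ℕ} (h : IsoC θ x' x) (p a b : ℕ) :
    ltp x p (θ a) (θ b) ↔ ltp x' (θ.symm p) a b := by
  unfold ltp
  have h1 := h.1 (θ.symm p) a b
  rw [θ.apply_symm_apply] at h1
  rw [h1, θ.injective.ne_iff, Equiv.eq_symm_apply]

theorem pr_iso {x x' : XC Γ} {θ : Equiv.Perm ℕ} (h : IsoC θ x' x) (γ : Γ) :
    Pr x γ ↔ Pr x' γ := by
  constructor
  · intro h1 a b c h2
    have h3 := h1 (θ a) (θ b) (θ c) (by rw [h.1, h2])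
    rw [h.2.1, h.2.1, h.2.1, h.1] at h3
    exact h3
  · intro h1 a b c h2
    obtain ⟨a, rfl⟩ := θ.surjective a
    obtain ⟨b, rfl⟩ := θ.surjective b
    obtain ⟨c, rfl⟩ := θ.surjective c
    rw [h.1] at h2
    rw [h.2.1, h.2.1, h.2.1, h.1]
    exact h1 a b c h2

open Classical in
theorem lv_iso {x x' : XC Γ} {θ : Equiv.Perm ℕ} (hθ : IsoC θ x' x) (p : ℕ) (γ : Γ) (a : ℕ)
    (n : ℤ) : lv x p γ (θ a) n = lv x' (θ.symm p) γ a n := by
  have e1 := hθ.2.1 γ a
  have e2 := hθ.2.1 γ (θ.symm p)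
  rw [θ.apply_symm_apply] at e2
  unfold lv
  rw [e1, e2]
  refine if_congr (pr_iso hθ γ) (if_congr (ltp_iso hθ _ _ _) rfl rfl)
    (if_congr (ltp_iso hθ _ _ _) rfl rfl)

theorem Cod.pull {x x' : XC Γ} {p : ℕ} {f : ℕ × ℤ → ℕ} {y : XG (Dl Γ)} (h : Cod x p f y)
    {θ : Equiv.Perm ℕ} (hθ : IsoC θ x' x) :
    Cod x' (θ.symm p) (fun u => f (θ u.1, u.2)) y := by
  refine ⟨?_, fun u w => ?_, h.one, h.mul, fun a n => ?_,
    fun γ a n => ?_, fun a n => ?_, fun a n => ?_, fun i a n => ?_⟩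
  · have h1 : (fun u : ℕ × ℤ => f (θ u.1, u.2)) = f ∘ (θ.prodCongr (Equiv.refl ℤ)) := rfl
    rw [h1]
    exact h.bij.comp (Equiv.bijective _)
  · rw [h.lt]
    exact or_congr Iff.rfl (and_congr Iff.rfl (ltp_iso hθ _ _ _))
  · rw [h.t]
  · rw [h.s, hθ.2.1, lv_iso hθ]
  · rw [h.p0]
  · rw [h.p1, Equiv.eq_symm_apply]
  · rw [h.pi, hθ.2.2]

section ord2

variable [Group Γ] {x : XC Γ}

theorem lex_tr (h : COR x) {p : ℕ} {u v w : ℕ × ℤ} (h1 : lex x p u v) (h2 : lex x p v w) :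
    lex x p u w := by
  rcases h1 with h1 | ⟨h1, h1'⟩
  · rcases h2 with h2 | ⟨h2, -⟩
    · exact Or.inl (h1.trans h2)
    · exact Or.inl (h2 ▸ h1)
  · rcases h2 with h2 | ⟨h2, h2'⟩
    · exact Or.inl (h1 ▸ h2)
    · exact Or.inr ⟨h1.trans h2, ltp_tr h h1' h2'⟩

theorem lex_irr (p : ℕ) (u : ℕ × ℤ) : ¬ lex x p u u := by
  rintro (h1 | ⟨-, h1⟩)
  · exact lt_irrefl _ h1
  · exact ltp_irr _ _ h1

theorem lex_tot (h : COR x) {p : ℕ} {u w : ℕ × ℤ} (hne : u ≠ w) : lex x p u w ∨ lex x p w u := by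
  rcases lt_trichotomy u.2 w.2 with h1 | h1 | h1
  · exact Or.inl (Or.inl h1)
  · have h2 : u.1 ≠ w.1 := fun h2 => hne (Prod.ext h2 h1)
    rcases ltp_tot h (p := p) h2 with h3 | h3
    · exact Or.inl (Or.inr ⟨h1, h3⟩)
    · exact Or.inr (Or.inr ⟨h1.symm, h3⟩)
  · exact Or.inr (Or.inl h1)

theorem act_inj (h : COR x) (γ : Γ) : Function.Injective (x.2.1 γ) := by
  intro a b hab
  have h1 := congrArg (x.2.1 γ⁻¹) hab
  rwa [← h.mul, ← h.mul, inv_mul_cancel, h.one, h.one] at h1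

theorem lv_pos {p : ℕ} {γ : Γ} (hp : Pr x γ) {a : ℕ} {n : ℤ}
    (h : ltp x p (x.2.1 γ a) (x.2.1 γ p)) : lv x p γ a n = n + 1 := by
  unfold lv
  rw [if_pos hp, if_pos h]

theorem lv_pos' {p : ℕ} {γ : Γ} (hp : Pr x γ) {a : ℕ} {n : ℤ}
    (h : ¬ ltp x p (x.2.1 γ a) (x.2.1 γ p)) : lv x p γ a n = n := by
  unfold lv
  rw [if_pos hp, if_neg h]

theorem lv_neg {p : ℕ} {γ : Γ} (hp : ¬ Pr x γ) {a : ℕ} {n : ℤ}
    (h : ltp x p (x.2.1 γ p) (x.2.1 γ a)) : lv x p γ a n = -n - 1 := by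
  unfold lv
  rw [if_neg hp, if_pos h]

theorem lv_neg' {p : ℕ} {γ : Γ} (hp : ¬ Pr x γ) {a : ℕ} {n : ℤ}
    (h : ¬ ltp x p (x.2.1 γ p) (x.2.1 γ a)) : lv x p γ a n = -n := by
  unfold lv
  rw [if_neg hp, if_neg h]

/-- the lift of a preserving element is monotone -/
theorem lift_mono (h : COR x) {p : ℕ} {γ : Γ} (hp : Pr x γ) {a b : ℕ} {n m : ℤ}
    (h1 : lex x p (a, n) (b, m)) :
    lex x p (x.2.1 γ a, lv x p γ a n) (x.2.1 γ b, lv x p γ b m) := by
  rcases h1 with h1 | ⟨h1, h2⟩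
  · simp only at h1
    by_cases ca : ltp x p (x.2.1 γ a) (x.2.1 γ p)
    · rw [lv_pos hp ca]
      by_cases cb : ltp x p (x.2.1 γ b) (x.2.1 γ p)
      · rw [lv_pos hp cb]
        left
        simp only
        omega
      · rw [lv_pos' hp cb]
        rcases (show n + 1 < m ∨ n + 1 = m by omega) with h2 | h2
        · exact Or.inl h2
        · right
          refine ⟨h2, ?_⟩
          simp only
          by_cases hbp : b = p
          · rw [hbp]
            exact ca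
          · have h3 : x.2.1 γ b ≠ x.2.1 γ p := fun h4 => hbp (act_inj h γ h4)
            rcases ltp_tot h (p := p) h3 with h4 | h4
            · exact absurd h4 cb
            · exact ltp_tr h ca h4
    · rw [lv_pos' hp ca]
      by_cases cb : ltp x p (x.2.1 γ b) (x.2.1 γ p)
      · rw [lv_pos hp cb]
        left
        simp only
        omega
      · rw [lv_pos' hp cb]
        exact Or.inl h1
  · simp only at h1 h2
    subst h1
    obtain ⟨n1, h2⟩ := h2
    rcases h2 with rfl | h2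
    · -- a = p
      rw [lv_pos' hp (ltp_irr _ _)]
      by_cases hb : ltp x a (x.2.1 γ b) (x.2.1 γ a)
      · left
        rw [lv_pos hp hb]
        simp only
        omega
      · right
        refine ⟨?_, ?_⟩
        · rw [lv_pos' hp hb]
        · have h3 : x.2.1 γ a ≠ x.2.1 γ b := fun h4 => n1 (act_inj h γ h4)
          exact (ltp_tot h (p := a) h3).resolve_right hb
    · have h3 := (cyc_iff h p _ _ _).1 (hp _ _ _ h2)
      rcases h3 with ⟨h3, h4⟩ | ⟨h3, h4⟩ | ⟨h3, h4⟩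
      · -- P < A < B
        right
        refine ⟨?_, h4⟩
        rw [lv_pos' hp fun h5 => ltp_asym h h3 h5,
          lv_pos' hp fun h5 => ltp_asym h (ltp_tr h h3 h4) h5]
      · -- A < B < P
        right
        refine ⟨?_, h3⟩
        rw [lv_pos hp (ltp_tr h h3 h4), lv_pos hp h4]
      · -- B < P < A
        left
        rw [lv_pos' hp fun h5 => ltp_asym h h4 h5, lv_pos hp h3]
        simp only
        omega

/-- the lift of a reversing element is antitone -/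
theorem lift_anti (h : COR x) {p : ℕ} {γ : Γ} (hp : ¬ Pr x γ) {a b : ℕ} {n m : ℤ}
    (h1 : lex x p (a, n) (b, m)) :
    lex x p (x.2.1 γ b, lv x p γ b m) (x.2.1 γ a, lv x p γ a n) := by
  have hr : ∀ a b c, x.1 a b c = true → x.1 (x.2.1 γ c) (x.2.1 γ b) (x.2.1 γ a) = true :=
    (h.mono γ).resolve_left hp
  rcases h1 with h1 | ⟨h1, h2⟩
  · simp only at h1
    by_cases ca : ltp x p (x.2.1 γ p) (x.2.1 γ a)
    · rw [lv_neg hp ca]
      by_cases cb : ltp x p (x.2.1 γ p) (x.2.1 γ b)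
      · rw [lv_neg hp cb]
        left
        simp only
        omega
      · rw [lv_neg' hp cb]
        rcases (show -m < -n - 1 ∨ -m = -n - 1 by omega) with h2 | h2
        · exact Or.inl h2
        · right
          refine ⟨h2, ?_⟩
          simp only
          by_cases hbp : b = p
          · rw [hbp]
            exact ca
          · have h3 : x.2.1 γ b ≠ x.2.1 γ p := fun h4 => hbp (act_inj h γ h4)
            rcases ltp_tot h (p := p) h3 with h4 | h4
            · exact ltp_tr h h4 ca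
            · exact absurd h4 cb
    · rw [lv_neg' hp ca]
      by_cases cb : ltp x p (x.2.1 γ p) (x.2.1 γ b)
      · rw [lv_neg hp cb]
        left
        simp only
        omega
      · rw [lv_neg' hp cb]
        left
        simp only
        omega
  · simp only at h1 h2
    subst h1
    obtain ⟨n1, h2⟩ := h2
    rcases h2 with rfl | h2
    · -- a = p
      have ea : lv x a γ a n = -n := lv_neg' hp (ltp_irr _ _)
      rw [ea]
      by_cases hb : ltp x a (x.2.1 γ a) (x.2.1 γ b)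
      · left
        rw [lv_neg hp hb]
        simp only
        omega
      · right
        refine ⟨?_, ?_⟩
        · rw [lv_neg' hp hb]
        · have h3 : x.2.1 γ a ≠ x.2.1 γ b := fun h4 => n1 (act_inj h γ h4)
          exact (ltp_tot h (p := a) h3).resolve_left hb
    · have h3 := (cyc_iff h p _ _ _).1 (hr _ _ _ h2)
      rcases h3 with ⟨h3, h4⟩ | ⟨h3, h4⟩ | ⟨h3, h4⟩
      · -- B < A < P
        right
        refine ⟨?_, h3⟩
        rw [lv_neg' hp fun h5 => ltp_asym h (ltp_tr h h3 h4) h5,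
          lv_neg' hp fun h5 => ltp_asym h h4 h5]
      · -- A < P < B
        left
        rw [lv_neg hp h4, lv_neg' hp fun h5 => ltp_asym h h3 h5]
        simp only
        omega
      · -- P < B < A
        right
        refine ⟨?_, h4⟩
        rw [lv_neg hp h3, lv_neg hp (ltp_tr h h3 h4)]

/-- the codes are linear orders with an action by monotone and antitone bijections -/
theorem cod_RV (h : COR x) {p : ℕ} {f : ℕ × ℤ → ℕ} {y : XG (Dl Γ)} (hc : Cod x p f y) : RV y := by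
  have hsur : ∀ m, ∃ u, f u = m := hc.bij.2
  have htot : ∀ m n, m ≠ n → y.1 m n = true ∨ y.1 n m = true := by
    intro m n hmn
    obtain ⟨u, rfl⟩ := hsur m
    obtain ⟨w, rfl⟩ := hsur n
    rw [hc.lt, hc.lt]
    exact lex_tot h fun h1 => hmn (by rw [h1])
  have hirr : ∀ m, y.1 m m ≠ true := by
    intro m h1
    obtain ⟨u, rfl⟩ := hsur m
    exact lex_irr _ _ ((hc.lt _ _).1 h1)
  have htr : ∀ m n k, y.1 m n = true → y.1 n k = true → y.1 m k = true := by
    intro m n k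
    obtain ⟨u, rfl⟩ := hsur m
    obtain ⟨v, rfl⟩ := hsur n
    obtain ⟨w, rfl⟩ := hsur k
    rw [hc.lt, hc.lt, hc.lt]
    exact fun h1 h2 => lex_tr h h1 h2
  have hne : ∀ (δ : Dl Γ) (m n : ℕ), y.1 m n = true → y.2.1 δ⁻¹ n ≠ y.2.1 δ⁻¹ m := by
    intro δ m n h1 h2
    have h3 := congrArg (y.2.1 δ) h2
    rw [hc.inv_r, hc.inv_r] at h3
    rw [h3] at h1
    exact hirr _ h1
  refine ⟨fun m => Bool.eq_false_iff.2 (hirr m), htr, htot, hc.one, hc.mul, fun γ => ?_⟩
  refine act_ind (P := fun γ => (∀ m n, y.1 m n = true → y.1 (y.2.1 γ m) (y.2.1 γ n) = true) ∨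
    ∀ m n, y.1 m n = true → y.1 (y.2.1 γ n) (y.2.1 γ m) = true)
    (Or.inl fun m n => ?_) (Or.inl fun m n => ?_) (fun γ => ?_) (fun δ hδ => ?_)
    (fun γ δ h1 h2 => ?_) γ
  · rw [hc.one, hc.one]
    exact id
  · obtain ⟨⟨a, i⟩, rfl⟩ := hsur m
    obtain ⟨⟨b, j⟩, rfl⟩ := hsur n
    rw [hc.t, hc.t, hc.lt, hc.lt]
    rintro (h1 | ⟨h1, h2⟩)
    · left
      simp only at h1 ⊢
      omega
    · right
      simp only at h1 h2 ⊢
      exact ⟨by omega, h2⟩
  · by_cases hp : Pr x γ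
    · left
      intro m n
      obtain ⟨⟨a, i⟩, rfl⟩ := hsur m
      obtain ⟨⟨b, j⟩, rfl⟩ := hsur n
      rw [hc.s, hc.s, hc.lt, hc.lt]
      exact fun h1 => lift_mono h hp h1
    · right
      intro m n
      obtain ⟨⟨a, i⟩, rfl⟩ := hsur m
      obtain ⟨⟨b, j⟩, rfl⟩ := hsur n
      rw [hc.s, hc.s, hc.lt, hc.lt]
      exact fun h1 => lift_anti h hp h1
  · rcases hδ with hδ | hδ
    · left
      intro m n h1
      by_contra hcon
      have h2 := hδ _ _ ((htot _ _ (hne δ m n h1)).resolve_right hcon)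
      rw [hc.inv_r, hc.inv_r] at h2
      exact hirr _ (htr _ _ _ h1 h2)
    · right
      intro m n h1
      by_contra hcon
      have h2 := hδ _ _ ((htot _ _ (hne δ m n h1)).resolve_left hcon)
      rw [hc.inv_r, hc.inv_r] at h2
      exact hirr _ (htr _ _ _ h1 h2)
  · rcases h1 with h1 | h1 <;> rcases h2 with h2 | h2
    · left
      intro m n h3
      rw [hc.mul, hc.mul]
      exact h1 _ _ (h2 _ _ h3)
    · right
      intro m n h3
      rw [hc.mul, hc.mul]
      exact h1 _ _ (h2 _ _ h3)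
    · right
      intro m n h3
      rw [hc.mul, hc.mul]
      exact h1 _ _ (h2 _ _ h3)
    · left
      intro m n h3
      rw [hc.mul, hc.mul]
      exact h1 _ _ (h2 _ _ h3)

/-- the deck transformation -/
def pT : Equiv.Perm (ℕ × ℤ) where
  toFun u := (u.1, u.2 + 1)
  invFun u := (u.1, u.2 - 1)
  left_inv u := by simp
  right_inv u := by simp

/-- the lift of `γ` -/
noncomputable def pS (h : COR x) (p : ℕ) (γ : Γ) : Equiv.Perm (ℕ × ℤ) :=
  Equiv.ofBijective (fun u => (x.2.1 γ u.1, lv x p γ u.1 u.2)) <| by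
    constructor
    · rintro ⟨a, n⟩ ⟨b, m⟩ h1
      have h2 : a = b := act_inj h γ (congrArg Prod.fst h1)
      subst h2
      exact Prod.ext rfl (lv_inj x p γ a (congrArg Prod.snd h1))
    · rintro ⟨b, m⟩
      obtain ⟨n, hn⟩ := lv_sur x p γ (x.2.1 γ⁻¹ b) m
      have h1 : x.2.1 γ (x.2.1 γ⁻¹ b) = b := by rw [← h.mul, mul_inv_cancel, h.one]
      exact ⟨(x.2.1 γ⁻¹ b, n), Prod.ext h1 hn⟩

/-- the action of the free group on the universal cover -/
noncomputable def phi (h : COR x) (p : ℕ) : Dl Γ →* Equiv.Perm (ℕ × ℤ) :=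
  FreeGroup.lift fun o => Option.elim o pT (pS h p)

open Classical in
/-- the code exists -/
theorem cod_ex (h : COR x) (p : ℕ) (e : ℕ × ℤ ≃ ℕ) : ∃ y : XG (Dl Γ), Cod x p e y := by
  refine ⟨(fun m n => decide (lex x p (e.symm m) (e.symm n)),
    fun δ m => e (phi h p δ (e.symm m)),
    fun i m => match i with
      | 0 => decide ((e.symm m).2 = 0)
      | 1 => decide ((e.symm m).2 = 0 ∧ (e.symm m).1 = p)
      | i + 2 => x.2.2 i (e.symm m).1), ?_⟩
  refine ⟨e.bijective, fun u w => ?_, fun m => ?_, fun γ δ m => ?_, fun a n => ?_,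
    fun γ a n => ?_, fun a n => ?_, fun a n => ?_, fun i a n => ?_⟩
  · simp only [e.symm_apply_apply, decide_eq_true_eq]
  · simp only [map_one, Equiv.Perm.one_apply, e.apply_symm_apply]
  · simp only [map_mul, Equiv.Perm.mul_apply, e.symm_apply_apply]
  · simp only [e.symm_apply_apply]
    congr 1
  · simp only [e.symm_apply_apply]
    congr 1
  · simp only [e.symm_apply_apply, decide_eq_true_eq]
  · simp only [e.symm_apply_apply, decide_eq_true_eq]
  · simp only [e.symm_apply_apply]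

end ord2

end Pool.Agent.Y454.TH
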